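import Mathlib

set_option autoImplicit false

namespace Pool.Agent.Results.MP_95a664_lc.NoTukeyMinimalPoset

open Cardinal

universe u

/-- `J` is an ideal of subsets of `α`. -/
structure IsIdeal {α : Type} (J : Set (Set α)) : Prop where
  empty_mem : ∅ ∈ J
  mono : ∀ A ∈ J, ∀ B, B ⊆ A → B ∈ J
  union : ∀ A ∈ J, ∀ B ∈ J, A ∪ B ∈ J

/-- `P ≤_T Q`: some map `Q → P` sends every cofinal subset of `Q` onto a cofinal subset of `P`. -/
def TukeyLE (P : Type u) (Q : Type) [PartialOrder P] [PartialOrder Q] : Prop :=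
  ∃ f : Q → P, ∀ B : Set Q, IsCofinal B → IsCofinal (f '' B)

/-- `Q` is `J`-cohesive: there is a family indexed by `⋃ J` whose restriction to any subset of `⋃ J`
outside `J` is unbounded. -/
def Cohesive {α : Type} (J : Set (Set α)) (Q : Type) [PartialOrder Q] : Prop :=
  ∃ q : (⋃₀ J : Set α) → Q, ∀ S : Set α, S ⊆ ⋃₀ J → S ∉ J →
    ¬ BddAbove (q '' {i | (i : α) ∈ S})

/-- `ω₁` -/
abbrev W : Type := (Cardinal.aleph 1).ord.ToType

theorem W_Iio (a : W) : (Set.Iio a).Countable := by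
  have h := Cardinal.mk_Iio_lt a (by simp)
  rw [← Cardinal.le_aleph0_iff_set_countable]
  have h3 : #W = Cardinal.aleph 1 := by simp [W]
  have h2 : #W = Order.succ ℵ₀ := h3.trans Cardinal.succ_aleph0.symm
  exact Order.lt_succ_iff.1 (h.trans_eq h2)

theorem W_unc : ¬ (Set.univ : Set W).Countable := by
  rw [← Cardinal.le_aleph0_iff_set_countable, Cardinal.mk_univ]
  have : #W = Cardinal.aleph 1 := by simp [W]
  rw [this, not_le]
  exact Cardinal.aleph0_lt_aleph_one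

theorem W_cofinal {D : Set W} (hD : ¬ D.Countable) : IsCofinal D := by
  intro a
  by_contra h
  push Not at h
  apply hD
  exact (W_Iio a).mono fun d hd => h d hd

/-- the ideal -/
def J : Set (Set (ℕ × W)) := {A | ∃ n : ℕ, {p ∈ A | n < p.1}.Countable}

theorem J_ideal : IsIdeal J := by
  refine ⟨⟨0, by simp⟩, ?_, ?_⟩
  · rintro A ⟨n, hn⟩ B hB
    refine ⟨n, hn.mono ?_⟩
    rintro p ⟨hp1, hp2⟩
    exact ⟨hB hp1, hp2⟩
  · rintro A ⟨n, hn⟩ B ⟨m, hm⟩
    refine ⟨max n m, (hn.union hm).mono ?_⟩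
    rintro p ⟨hp | hp, h⟩
    · exact Set.mem_union_left _ ⟨hp, lt_of_le_of_lt (le_max_left _ _) h⟩
    · exact Set.mem_union_right _ ⟨hp, lt_of_le_of_lt (le_max_right _ _) h⟩

theorem J_space : (⋃₀ J : Set (ℕ × W)) = Set.univ := by
  ext p
  simp only [Set.mem_sUnion, Set.mem_univ, iff_true]
  have hp : ({p} : Set (ℕ × W)) ∈ J := ⟨0, (Set.countable_singleton p).mono fun x hx => hx.1⟩
  exact ⟨{p}, hp, rfl⟩

theorem univ_notMem : (Set.univ : Set (ℕ × W)) ∉ J := by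
  rintro ⟨n, hn⟩
  apply W_unc
  have h1 : (Prod.snd '' {p ∈ (Set.univ : Set (ℕ × W)) | n < p.1}).Countable := hn.image _
  refine h1.mono ?_
  intro w _
  exact ⟨(n + 1, w), ⟨Set.mem_univ _, Nat.lt_succ_self n⟩, rfl⟩

theorem cohesive_nat : Cohesive J ℕ := by
  refine ⟨fun i => i.1.1, ?_⟩
  rintro S hS hSJ ⟨n, hn⟩
  apply hSJ
  refine ⟨n, ?_⟩
  have : {p ∈ S | n < p.1} = ∅ := by
    ext p
    simp only [Set.mem_ofPred_eq, Set.mem_empty_iff_false, iff_false, not_and, not_lt]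
    intro hp
    exact hn ⟨⟨p, hS hp⟩, hp, rfl⟩
  rw [this]
  exact Set.countable_empty

theorem cohesive_W : Cohesive J W := by
  refine ⟨fun i => i.1.2, ?_⟩
  rintro S hS hSJ ⟨a, ha⟩
  apply hSJ
  refine ⟨0, ?_⟩
  have h1 : (Set.Iic a).Countable := by
    rw [← Set.Iio_insert]
    exact (W_Iio a).insert a
  have h2 : ((Set.univ : Set ℕ) ×ˢ (Set.Iic a)).Countable := (Set.countable_univ).prod h1
  refine h2.mono ?_
  rintro p ⟨hp, -⟩
  exact ⟨Set.mem_univ _, ha ⟨⟨p, hS hp⟩, hp, rfl⟩⟩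

theorem exists_top (P : Type u) [PartialOrder P] (h1 : TukeyLE P ℕ) (h2 : TukeyLE P W) :
    ∃ m : P, ∀ p, p ≤ m := by
  obtain ⟨f, hf⟩ := h1
  obtain ⟨g, hg⟩ := h2
  have hC : ∀ n : ℕ, {a : W | ¬ f n ≤ g a}.Countable := by
    intro n
    by_contra hc
    obtain ⟨_, ⟨a, ha, rfl⟩, h⟩ := hg _ (W_cofinal hc) (f n)
    exact ha h
  have h3 : (⋃ n, {a : W | ¬ f n ≤ g a}).Countable := Set.countable_iUnion hC
  have h4 : ∃ a : W, ∀ n, f n ≤ g a := by
    by_contra hcon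
    push Not at hcon
    apply W_unc
    refine h3.mono ?_
    intro a _
    obtain ⟨n, hn⟩ := hcon a
    exact Set.mem_iUnion.2 ⟨n, hn⟩
  obtain ⟨a, ha⟩ := h4
  refine ⟨g a, fun p => ?_⟩
  have huniv : IsCofinal (Set.univ : Set ℕ) := fun x => ⟨x, Set.mem_univ _, le_rfl⟩
  obtain ⟨_, ⟨n, -, rfl⟩, hn⟩ := hf _ huniv p
  exact hn.trans (ha n)

/-- There is an ideal such that no poset `P` has the property that the directed sets Tukey above `P`
are exactly the cohesive ones. -/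
theorem result : ∃ (α : Type) (J : Set (Set α)), IsIdeal J ∧
    ¬ ∃ (P : Type u) (_ : PartialOrder P), ∀ (Q : Type) [PartialOrder Q] [IsDirectedOrder Q]
      [Nonempty Q], TukeyLE P Q ↔ Cohesive J Q := by
  refine ⟨ℕ × W, J, J_ideal, ?_⟩
  rintro ⟨P, _, h⟩
  have hWne : Nonempty W := by
    by_contra hne
    rw [not_nonempty_iff] at hne
    exact W_unc (Set.countable_univ)
  obtain ⟨m, hm⟩ := exists_top P ((h ℕ).2 cohesive_nat) ((h W).2 cohesive_W)
  have h1 : TukeyLE P PUnit := by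
    refine ⟨fun _ => m, fun B hB p => ?_⟩
    obtain ⟨b, hb, -⟩ := hB PUnit.unit
    exact ⟨m, ⟨b, hb, rfl⟩, hm p⟩
  obtain ⟨q, hq⟩ := (h PUnit).1 h1
  refine hq Set.univ ?_ univ_notMem ?_
  · rw [J_space]
  · exact ⟨PUnit.unit, fun _ _ => le_rfl⟩

end Pool.Agent.Results.MP_95a664_lc.NoTukeyMinimalPoset
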